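import Mathlib
import Pool.Agent.H447R2.ML.Spec
import Pool.Agent.U776.PS.All

set_option autoImplicit false

/-!
# Primes in the real solutions of the Pell recursion: Poisson law for almost every solution

Let `α = 1 + √2`, `α' = 1 - √2`.  The real orbits of the recursion `X' = X + 2 Y`, `Y' = X + Y` are
`X β B n = β α ^ n + B α' ^ n`, `Y β B n = (β α ^ n - B α' ^ n) / √2`, and
`X ^ 2 - 2 Y ^ 2 = 4 β B (-1) ^ n`; so for `B = 1 / (4 β)` the points with odd `n` are real solutions of
`X ^ 2 - 2 Y ^ 2 = -1`.  For `β = B = 1 / 2` they are the integer solutions `(x n, y n)`,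
`x n + y n √2 = (1 + √2) ^ n`; those with odd `n` are the solutions of the equation
`x ^ 2 - 2 y ^ 2 = -1` of the question.  For a prime `p` let `WX β B p`, `WY β B p` be the `p`-rough
parts (the product, with multiplicity, of the prime factors larger than `p`) of `⌊X β B p⌋`,
`⌊Y β B p⌋`; for the integer solution these are `x p` and `y p` themselves, for all primes `p > 3`.

The heuristic for the primes among the `x n` is a Poisson model: the numbers of the primes `p` in
disjoint sets with `x p` prime should behave like independent Poisson variables, and the expected number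
in a finite set `S` of primes should be `κ * V S`, `V S = ∑_{p ∈ S} log p / p`,
`κ = e ^ γ / log (1 + √2)`.  We prove that almost every single `β` behaves in this way, for all `B` at
once and for both coordinates, along thin sets of primes: sets whose part in every dyadic interval
`(x, 2 x]` has small weight `V`.

Precisely, let `y 0 ≤ y 1 ≤ …`, and let `S n i`, `i` in a finite index set, be disjoint finite sets of
primes in `[y n, y (n + 1))`, thin as `n → ∞`, with `V (S n i) → v i`.  Let `X n` be the vector of the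
numbers of good primes in the sets `S n i`.  For almost every `β > 0` and all real `B`, the sequence
`X 0, X 1, X 2, …` is generic for the sequence of independent vectors of independent Poisson variables
with the parameters `κ * v i`: every tuple `(k 0, …, k (r - 1))` of vectors occurs among the tuples
`(X n, …, X (n + r - 1))` with its Poisson probability as frequency.
-/

namespace Pool.Agent.Results.MP_927e73_nt.PoissonLaw

open Filter Topology MeasureTheory

/-- The fundamental unit. -/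
noncomputable def α : ℝ := 1 + Real.sqrt 2

/-- The conjugate of the fundamental unit. -/
noncomputable def α' : ℝ := 1 - Real.sqrt 2

/-- The first coordinate of a real orbit. -/
noncomputable def X (β B : ℝ) (n : ℕ) : ℝ := β * α ^ n + B * α' ^ n

/-- The second coordinate of a real orbit. -/
noncomputable def Y (β B : ℝ) (n : ℕ) : ℝ := (β * α ^ n - B * α' ^ n) / Real.sqrt 2

/-- The integer orbit `(x n, y n)`, `x n + y n √2 = (1 + √2) ^ n`. -/
def pell : ℕ → ℕ × ℕ
  | 0 => (1, 0)
  | (n + 1) => ((pell n).1 + 2 * (pell n).2, (pell n).1 + (pell n).2)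

/-- The product, with multiplicity, of the prime factors of `m` that are larger than `p`. -/
def roughPart (p m : ℕ) : ℕ := (m.primeFactorsList.filter (fun r => p < r)).prod

/-- The `p`-rough part of `⌊X β B p⌋`. -/
noncomputable def WX (β B : ℝ) (p : ℕ) : ℕ := roughPart p ⌊X β B p⌋₊

/-- The `p`-rough part of `⌊Y β B p⌋`. -/
noncomputable def WY (β B : ℝ) (p : ℕ) : ℕ := roughPart p ⌊Y β B p⌋₊

/-- The number of the `p` in the finite set `S` for which `w p` is prime. -/
noncomputable def N (S : Finset ℕ) (w : ℕ → ℕ) : ℕ := (S.filter (fun p => (w p).Prime)).card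

/-- The weight `∑_{p ∈ S} log p / p` of a finite set. -/
noncomputable def V (S : Finset ℕ) : ℝ := ∑ p ∈ S, Real.log p / p

/-- The constant `e ^ γ / log (1 + √2)`. -/
noncomputable def κ : ℝ := Real.exp Real.eulerMascheroniConstant / Real.log α

/-- The weights of the Poisson law with the parameter `lam`. -/
noncomputable def pois (lam : ℝ) (k : ℕ) : ℝ := Real.exp (-lam) * lam ^ k / k.factorial

/-- `S 0, S 1, …` are families (indexed by `ι`) of pairwise disjoint finite sets of primes; the weight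
of the part in a dyadic interval tends to zero, uniformly in the interval. -/
structure Thin {ι : Type} (S : ℕ → ι → Finset ℕ) : Prop where
  prime : ∀ n i, ∀ p ∈ S n i, p.Prime
  disjoint : ∀ n i j, i ≠ j → Disjoint (S n i) (S n j)
  dyadic : ∀ δ : ℝ, 0 < δ → ∀ᶠ n in atTop, ∀ i, ∀ x : ℕ,
    V ((S n i).filter (fun p => x < p ∧ p ≤ 2 * x)) ≤ δ

lemma sq2 : Real.sqrt 2 ^ 2 = 2 := Real.sq_sqrt (by norm_num)

lemma sqrt2_pos : 0 < Real.sqrt 2 := Real.sqrt_pos.2 (by norm_num)

lemma one_lt_sqrt2 : 1 < Real.sqrt 2 := by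
  rw [Real.lt_sqrt (by norm_num)]
  norm_num

lemma sqrt2_lt : Real.sqrt 2 < 2 := by
  rw [Real.sqrt_lt' (by norm_num)]
  norm_num

lemma one_lt_alpha : 1 < α := by
  unfold α
  linarith [sqrt2_pos]

lemma conj_lt : |α'| < 1 := by
  unfold α'
  rw [abs_lt]
  constructor <;> linarith [one_lt_sqrt2, sqrt2_lt]

lemma alpha_mul : α * α' = -1 := by unfold α α'; nlinarith [sq2]

lemma X_succ (β B : ℝ) (n : ℕ) : X β B (n + 1) = X β B n + 2 * Y β B n := by
  have h := sqrt2_pos.ne'
  have h2 := sq2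
  unfold X Y
  rw [pow_succ, pow_succ, mul_div_assoc', eq_comm, ← sub_eq_zero]
  field_simp
  unfold α α'
  ring_nf
  rw [sq2]
  ring

lemma Y_succ (β B : ℝ) (n : ℕ) : Y β B (n + 1) = X β B n + Y β B n := by
  have h := sqrt2_pos.ne'
  have h2 := sq2
  unfold X Y
  rw [pow_succ, pow_succ, eq_comm, ← sub_eq_zero]
  field_simp
  unfold α α'
  ring

lemma norm_eq (β B : ℝ) (n : ℕ) : X β B n ^ 2 - 2 * Y β B n ^ 2 = 4 * β * B * (-1) ^ n := by
  unfold X Y
  rw [div_pow, sq2, ← alpha_mul, mul_pow]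
  ring

lemma point (n : ℕ) : X (1 / 2) (1 / 2) n = (pell n).1 ∧ Y (1 / 2) (1 / 2) n = (pell n).2 := by
  induction n with
  | zero =>
    unfold X Y pell
    simp
    norm_num
  | succ n ih =>
    rw [X_succ, Y_succ, ih.1, ih.2]
    show _ = (((pell n).1 + 2 * (pell n).2 : ℕ) : ℝ) ∧ _ = (((pell n).1 + (pell n).2 : ℕ) : ℝ)
    push_cast
    exact ⟨rfl, rfl⟩

lemma pell_luc (n : ℕ) : Pool.Agent.H447R2.ML.U 2 n = (pell n).2 ∧
    Pool.Agent.H447R2.ML.V 2 n = 2 * (pell n).1 := by
  induction n using Nat.twoStepInduction with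
  | zero => exact ⟨rfl, rfl⟩
  | one => exact ⟨rfl, rfl⟩
  | more n h1 h2 =>
    rw [Pool.Agent.H447R2.ML.U_add_two, Pool.Agent.H447R2.ML.V_add_two, h1.1, h2.1, h1.2, h2.2]
    simp only [pell]
    constructor <;> ring

lemma pell_odd (n : ℕ) : Odd (pell n).1 := by
  induction n with
  | zero => exact odd_one
  | succ n ih =>
    show Odd ((pell n).1 + 2 * (pell n).2)
    exact ih.add_even (even_two_mul _)

/-- The integer solution: second coordinate. -/
lemma WY_point {p : ℕ} (hp : p.Prime) (h3 : 3 < p) : WY (1 / 2) (1 / 2) p = (pell p).2 := by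
  have h5 : 5 ≤ p := by
    by_contra h
    have : p = 4 := by omega
    subst this
    exact absurd hp (by norm_num)
  have hd : ¬ p ∣ 2 ^ 2 + 4 := by
    intro h
    have h8 : p ∣ 2 ^ 3 := h
    have := Nat.le_of_dvd two_pos (hp.dvd_of_dvd_pow h8)
    omega
  have h := Pool.Agent.H447R2.ML.rough_U 2 two_pos hp h5 hd
    (x := Y (1 / 2) (1 / 2) p) (by rw [(point p).2, (pell_luc p).1])
  rw [(pell_luc p).1] at h
  exact h

/-- The integer solution: first coordinate. -/
lemma WX_point {p : ℕ} (hp : p.Prime) (h3 : 3 < p) : WX (1 / 2) (1 / 2) p = (pell p).1 := by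
  have h5 : 5 ≤ p := by
    by_contra h
    have : p = 4 := by omega
    subst this
    exact absurd hp (by norm_num)
  have hd : ¬ p ∣ 2 := fun h => by
    have := Nat.le_of_dvd two_pos h
    omega
  have h : Pool.Agent.H305R2.roughPart p ⌊X (1 / 2) (1 / 2) p⌋₊ = (pell p).1 := by
    rw [(point p).1, Nat.floor_natCast]
    refine Pool.Agent.H447R2.ML.roughPart_eq_self ?_ fun q hq h => ?_
    · exact (pell_odd p).pos.ne'
    · refine Pool.Agent.H447R2.ML.lt_of_dvd_V 2 hp h5 hd hq (fun h' => ?_) ?_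
      · have h2 : q = 2 := (Nat.prime_dvd_prime_iff_eq hq Nat.prime_two).1 h'
        subst h2
        exact (Nat.not_even_iff_odd.2 (pell_odd p)) (even_iff_two_dvd.2 h)
      · rw [(pell_luc p).2]
        exact h.mul_left 2
  exact h

/-- The second coordinate of an orbit is the first coordinate of another one. -/
lemma Y_eq (β B : ℝ) (n : ℕ) :
    Y β B n = X ((Real.sqrt 2)⁻¹ * β) (-((Real.sqrt 2)⁻¹ * B)) n := by
  unfold X Y
  field_simp
  ring

lemma WY_eq (β B : ℝ) : WY β B = WX ((Real.sqrt 2)⁻¹ * β) (-((Real.sqrt 2)⁻¹ * B)) := by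
  funext p
  unfold WX WY
  rw [Y_eq]

/-- almost every statement is invariant under scaling -/
lemma ae_scale {P : ℝ → Prop} (h : ∀ᵐ x : ℝ, P x) {c : ℝ} (hc : c ≠ 0) : ∀ᵐ x : ℝ, P (c * x) := by
  have hq : Measure.QuasiMeasurePreserving (fun x : ℝ => c * x) volume volume :=
    ⟨measurable_const_mul c, by
      rw [Real.map_volume_mul_left hc]
      exact Measure.smul_absolutelyContinuous⟩
  exact hq.ae h

/-- the numbers of good indices of the orbit and of the amplitude -/
lemma N_eq {β B : ℝ} {m : ℕ}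
    (h : ∀ p ≥ m, ⌊β * α ^ p + B * α' ^ p⌋₊ = ⌊β * α ^ p + 0⌋₊)
    {S : Finset ℕ} (hS : ∀ p ∈ S, m ≤ p) :
    N S (WX β B) = Pool.Agent.U776.PL.NE (Pool.Agent.U776.PG.Er Pool.Agent.U776.PS.sr) S β := by
  unfold N Pool.Agent.U776.PL.NE
  refine congrArg Finset.card (Finset.ext fun p => ?_)
  simp only [Finset.mem_filter]
  refine and_congr_right fun hp => ?_
  have h1 := h p (hS p hp)
  rw [add_zero] at h1
  have h2 : WX β B p = Pool.Agent.H305R2.roughPart p ⌊β * α ^ p⌋₊ := by
    rw [← h1]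
    rfl
  rw [h2]
  rfl

open Classical in
/-- the statement for one orbit and one coordinate -/
def Generic {ι : Type} [Fintype ι] (S : ℕ → ι → Finset ℕ) (v : ι → ℝ) (w : ℕ → ℕ) : Prop :=
  ∀ (r : ℕ) (k : Fin r → ι → ℕ),
    Tendsto (fun m : ℕ => (((Finset.range m).filter
      (fun n => ∀ (l : Fin r) (i : ι), N (S (n + l) i) w = k l i)).card : ℝ) / (m : ℝ)) atTop
      (𝓝 (∏ l, ∏ i, pois (κ * v i) (k l i)))

lemma law_X {ι : Type} [Fintype ι] (S : ℕ → ι → Finset ℕ) (v : ι → ℝ) (hS : Thin S)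
    (y : ℕ → ℕ) (hmono : Monotone y) (hy : ∀ n i, ∀ p ∈ S n i, y n ≤ p ∧ p < y (n + 1))
    (hv : ∀ i, Tendsto (fun n => V (S n i)) atTop (𝓝 (v i))) (hpos : 0 < ∑ i, v i) :
    ∀ᵐ β : ℝ, 0 < β → ∀ B : ℝ, Generic S v (WX β B) := by
  classical
  obtain ⟨Λ, A, P, C, c0, H⟩ := Pool.Agent.U776.PS.qm_silver
  have h := Pool.Agent.U776.PG.quenched_tuples H S y hmono hy hS.disjoint hS.dyadic hv hpos
  filter_upwards [h, Pool.Agent.N176.GW.floor_ae one_lt_alpha] with β h1 h2 h0 B r k
  obtain ⟨m, hm⟩ := eventually_atTop.1 (h2 h0 α' conj_lt B)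
  have hlarge := Pool.Agent.U776.PL.large_of_windows hy hS.disjoint hv hpos m
  obtain ⟨n0, hn0⟩ := eventually_atTop.1 hlarge
  have h3 := h1 h0 r k
  simp only [Finset.card_filter, Nat.cast_sum, Nat.cast_ite, Nat.cast_one, Nat.cast_zero] at h3 ⊢
  refine Pool.Agent.U776.PG.avg_congr (fun n => ?_) (fun n => ?_) ?_ h3
  · split_ifs <;> simp
  · split_ifs <;> simp
  · filter_upwards [eventually_ge_atTop n0] with n hn
    have h5 : ∀ (l : Fin r) (i : ι), N (S (n + l) i) (WX β B) =
        Pool.Agent.U776.PL.NE (Pool.Agent.U776.PG.Er Pool.Agent.U776.PS.sr) (S (n + l) i) β :=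
      fun l i => N_eq hm (hn0 (n + l) (by omega) i)
    rw [if_congr (forall_congr' fun l => forall_congr' fun i => by rw [h5 l i]) rfl rfl]

open Classical in
/-- The real orbits and the integer orbit; the Poisson law for almost every `β`, all orbits with this
`β`, and both coordinates. -/
theorem result :
    (∀ (β B : ℝ) (n : ℕ), X β B (n + 1) = X β B n + 2 * Y β B n ∧ Y β B (n + 1) = X β B n + Y β B n ∧
      X β B n ^ 2 - 2 * Y β B n ^ 2 = 4 * β * B * (-1) ^ n) ∧
    (∀ n : ℕ, X (1 / 2) (1 / 2) n = (pell n).1 ∧ Y (1 / 2) (1 / 2) n = (pell n).2) ∧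
    (∀ p : ℕ, p.Prime → 3 < p →
      WX (1 / 2) (1 / 2) p = (pell p).1 ∧ WY (1 / 2) (1 / 2) p = (pell p).2) ∧
    (∀ (ι : Type) [Fintype ι] (S : ℕ → ι → Finset ℕ) (v : ι → ℝ), Thin S →
      ∀ y : ℕ → ℕ, Monotone y → (∀ n i, ∀ p ∈ S n i, y n ≤ p ∧ p < y (n + 1)) →
      (∀ i, Tendsto (fun n => V (S n i)) atTop (𝓝 (v i))) → 0 < ∑ i, v i →
      ∀ᵐ β : ℝ, 0 < β → ∀ B : ℝ, ∀ w : ℕ → ℕ, (w = WX β B ∨ w = WY β B) →
      ∀ (r : ℕ) (k : Fin r → ι → ℕ),
      Tendsto (fun m : ℕ => (((Finset.range m).filter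
        (fun n => ∀ (l : Fin r) (i : ι), N (S (n + l) i) w = k l i)).card : ℝ) / (m : ℝ)) atTop
        (𝓝 (∏ l, ∏ i, pois (κ * v i) (k l i)))) := by
  refine ⟨fun β B n => ⟨X_succ β B n, Y_succ β B n, norm_eq β B n⟩, point,
    fun p hp h3 => ⟨WX_point hp h3, WY_point hp h3⟩, ?_⟩
  intro ι _ S v hS y hmono hy hv hpos
  have h1 := law_X S v hS y hmono hy hv hpos
  filter_upwards [h1, ae_scale h1 (inv_ne_zero sqrt2_pos.ne')] with β h2 h3 h0 B w hw r k
  rcases hw with rfl | rfl
  · exact h2 h0 B r k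
  · rw [WY_eq]
    exact h3 (mul_pos (inv_pos.2 sqrt2_pos) h0) (-((Real.sqrt 2)⁻¹ * B)) r k

end Pool.Agent.Results.MP_927e73_nt.PoissonLaw
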