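import Mathlib
import Pool.Agent.H447R2.ML.Spec
import Pool.Agent.U776.PS.All

set_option autoImplicit false

/-!
# Primes in random real solutions of the Pell recursion: convergence to Poisson variables

Let `α = 1 + √2`, `α' = 1 - √2`.  The real orbits of the recursion `X' = X + 2 Y`, `Y' = X + Y` are
`X β B n = β α ^ n + B α' ^ n`, `Y β B n = (β α ^ n - B α' ^ n) / √2`, and
`X ^ 2 - 2 Y ^ 2 = 4 β B (-1) ^ n`; so for `B = 1 / (4 β)` the points with odd `n` are real solutions of
`X ^ 2 - 2 Y ^ 2 = -1`.  For `β = B = 1 / 2` they are the integer solutions `(x n, y n)`,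
`x n + y n √2 = (1 + √2) ^ n`; those with odd `n` are the solutions of the equation
`x ^ 2 - 2 y ^ 2 = -1` of the question.  For a prime `p` let `WX β B p`, `WY β B p` be the `p`-rough
parts (the product, with multiplicity, of the prime factors larger than `p`) of `⌊X β B p⌋`,
`⌊Y β B p⌋`; for the integer solution these are `x p` and `y p` themselves, for all primes `p > 3`.

Let the orbit be random: the pair `(β, B)` has any law on `ℝ²` with `β > 0` almost surely and an
absolutely continuous law of `β` (for instance a random point of the real hyperbola, with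
`B = 1 / (4 β)`).  Let `S n i`, `i` in a finite index set, be disjoint finite sets of primes which are
thin as `n → ∞` (the part in every dyadic interval `(x, 2 x]` has small weight `V`,
`V S = ∑_{p ∈ S} log p / p`), with `min ∪_i S n i → ∞` and `V (S n i) → v i`.  Then the numbers of the
`p` in `S n i` with `WX β B p` prime converge jointly in law to independent Poisson variables with the
parameters `κ * v i`, `κ = e ^ γ / log (1 + √2)`; the same holds for `WY`.
-/

namespace Pool.Agent.Results.MP_927e73_nt.PoissonLimit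

open Filter Topology MeasureTheory

/-- The fundamental unit. -/
noncomputable def α : ℝ := 1 + Real.sqrt 2

/-- The conjugate of the fundamental unit. -/
noncomputable def α' : ℝ := 1 - Real.sqrt 2

/-- The first coordinate of a real orbit. -/
noncomputable def X (β B : ℝ) (n : ℕ) : ℝ := β * α ^ n + B * α' ^ n

/-- The second coordinate of a real orbit. -/
noncomputable def Y (β B : ℝ) (n : ℕ) : ℝ := (β * α ^ n - B * α' ^ n) / Real.sqrt 2

/-- The integer orbit `(x n, y n)`, `x n + y n √2 = (1 + √2) ^ n`. -/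
def pell : ℕ → ℕ × ℕ
  | 0 => (1, 0)
  | (n + 1) => ((pell n).1 + 2 * (pell n).2, (pell n).1 + (pell n).2)

/-- The product, with multiplicity, of the prime factors of `m` that are larger than `p`. -/
def roughPart (p m : ℕ) : ℕ := (m.primeFactorsList.filter (fun r => p < r)).prod

/-- The `p`-rough part of `⌊X β B p⌋`. -/
noncomputable def WX (β B : ℝ) (p : ℕ) : ℕ := roughPart p ⌊X β B p⌋₊

/-- The `p`-rough part of `⌊Y β B p⌋`. -/
noncomputable def WY (β B : ℝ) (p : ℕ) : ℕ := roughPart p ⌊Y β B p⌋₊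

/-- The number of the `p` in the finite set `S` for which `w p` is prime. -/
noncomputable def N (S : Finset ℕ) (w : ℕ → ℕ) : ℕ := (S.filter (fun p => (w p).Prime)).card

/-- The weight `∑_{p ∈ S} log p / p` of a finite set. -/
noncomputable def V (S : Finset ℕ) : ℝ := ∑ p ∈ S, Real.log p / p

/-- The constant `e ^ γ / log (1 + √2)`. -/
noncomputable def κ : ℝ := Real.exp Real.eulerMascheroniConstant / Real.log α

/-- The weights of the Poisson law with the parameter `lam`. -/
noncomputable def pois (lam : ℝ) (k : ℕ) : ℝ := Real.exp (-lam) * lam ^ k / k.factorial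

/-- `S 0, S 1, …` are families (indexed by `ι`) of pairwise disjoint finite sets of primes; the weight
of the part in a dyadic interval tends to zero, uniformly in the interval. -/
structure Thin {ι : Type} (S : ℕ → ι → Finset ℕ) : Prop where
  prime : ∀ n i, ∀ p ∈ S n i, p.Prime
  disjoint : ∀ n i j, i ≠ j → Disjoint (S n i) (S n j)
  dyadic : ∀ δ : ℝ, 0 < δ → ∀ᶠ n in atTop, ∀ i, ∀ x : ℕ,
    V ((S n i).filter (fun p => x < p ∧ p ≤ 2 * x)) ≤ δ
  large : ∀ M : ℕ, ∀ᶠ n in atTop, ∀ i, ∀ p ∈ S n i, M ≤ p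

lemma sq2 : Real.sqrt 2 ^ 2 = 2 := Real.sq_sqrt (by norm_num)

lemma sqrt2_pos : 0 < Real.sqrt 2 := Real.sqrt_pos.2 (by norm_num)

lemma one_lt_sqrt2 : 1 < Real.sqrt 2 := by
  rw [Real.lt_sqrt (by norm_num)]
  norm_num

lemma sqrt2_lt : Real.sqrt 2 < 2 := by
  rw [Real.sqrt_lt' (by norm_num)]
  norm_num

lemma one_lt_alpha : 1 < α := by
  unfold α
  linarith [sqrt2_pos]

lemma conj_lt : |α'| < 1 := by
  unfold α'
  rw [abs_lt]
  constructor <;> linarith [one_lt_sqrt2, sqrt2_lt]

lemma alpha_mul : α * α' = -1 := by unfold α α'; nlinarith [sq2]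

lemma X_succ (β B : ℝ) (n : ℕ) : X β B (n + 1) = X β B n + 2 * Y β B n := by
  have h := sqrt2_pos.ne'
  have h2 := sq2
  unfold X Y
  rw [pow_succ, pow_succ, mul_div_assoc', eq_comm, ← sub_eq_zero]
  field_simp
  unfold α α'
  ring_nf
  rw [sq2]
  ring

lemma Y_succ (β B : ℝ) (n : ℕ) : Y β B (n + 1) = X β B n + Y β B n := by
  have h := sqrt2_pos.ne'
  have h2 := sq2
  unfold X Y
  rw [pow_succ, pow_succ, eq_comm, ← sub_eq_zero]
  field_simp
  unfold α α'
  ring

lemma norm_eq (β B : ℝ) (n : ℕ) : X β B n ^ 2 - 2 * Y β B n ^ 2 = 4 * β * B * (-1) ^ n := by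
  unfold X Y
  rw [div_pow, sq2, ← alpha_mul, mul_pow]
  ring

lemma point (n : ℕ) : X (1 / 2) (1 / 2) n = (pell n).1 ∧ Y (1 / 2) (1 / 2) n = (pell n).2 := by
  induction n with
  | zero =>
    unfold X Y pell
    simp
    norm_num
  | succ n ih =>
    rw [X_succ, Y_succ, ih.1, ih.2]
    show _ = (((pell n).1 + 2 * (pell n).2 : ℕ) : ℝ) ∧ _ = (((pell n).1 + (pell n).2 : ℕ) : ℝ)
    push_cast
    exact ⟨rfl, rfl⟩

lemma pell_luc (n : ℕ) : Pool.Agent.H447R2.ML.U 2 n = (pell n).2 ∧
    Pool.Agent.H447R2.ML.V 2 n = 2 * (pell n).1 := by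
  induction n using Nat.twoStepInduction with
  | zero => exact ⟨rfl, rfl⟩
  | one => exact ⟨rfl, rfl⟩
  | more n h1 h2 =>
    rw [Pool.Agent.H447R2.ML.U_add_two, Pool.Agent.H447R2.ML.V_add_two, h1.1, h2.1, h1.2, h2.2]
    simp only [pell]
    constructor <;> ring

lemma pell_odd (n : ℕ) : Odd (pell n).1 := by
  induction n with
  | zero => exact odd_one
  | succ n ih =>
    show Odd ((pell n).1 + 2 * (pell n).2)
    exact ih.add_even (even_two_mul _)

/-- The integer solution: second coordinate. -/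
lemma WY_point {p : ℕ} (hp : p.Prime) (h3 : 3 < p) : WY (1 / 2) (1 / 2) p = (pell p).2 := by
  have h5 : 5 ≤ p := by
    by_contra h
    have : p = 4 := by omega
    subst this
    exact absurd hp (by norm_num)
  have hd : ¬ p ∣ 2 ^ 2 + 4 := by
    intro h
    have h8 : p ∣ 2 ^ 3 := h
    have := Nat.le_of_dvd two_pos (hp.dvd_of_dvd_pow h8)
    omega
  have h := Pool.Agent.H447R2.ML.rough_U 2 two_pos hp h5 hd
    (x := Y (1 / 2) (1 / 2) p) (by rw [(point p).2, (pell_luc p).1])
  rw [(pell_luc p).1] at h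
  exact h

/-- The integer solution: first coordinate. -/
lemma WX_point {p : ℕ} (hp : p.Prime) (h3 : 3 < p) : WX (1 / 2) (1 / 2) p = (pell p).1 := by
  have h5 : 5 ≤ p := by
    by_contra h
    have : p = 4 := by omega
    subst this
    exact absurd hp (by norm_num)
  have hd : ¬ p ∣ 2 := fun h => by
    have := Nat.le_of_dvd two_pos h
    omega
  have h : Pool.Agent.H305R2.roughPart p ⌊X (1 / 2) (1 / 2) p⌋₊ = (pell p).1 := by
    rw [(point p).1, Nat.floor_natCast]
    refine Pool.Agent.H447R2.ML.roughPart_eq_self ?_ fun q hq h => ?_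
    · exact (pell_odd p).pos.ne'
    · refine Pool.Agent.H447R2.ML.lt_of_dvd_V 2 hp h5 hd hq (fun h' => ?_) ?_
      · have h2 : q = 2 := (Nat.prime_dvd_prime_iff_eq hq Nat.prime_two).1 h'
        subst h2
        exact (Nat.not_even_iff_odd.2 (pell_odd p)) (even_iff_two_dvd.2 h)
      · rw [(pell_luc p).2]
        exact h.mul_left 2
  exact h

/-- The second coordinate of an orbit is the first coordinate of another one. -/
lemma Y_eq (β B : ℝ) (n : ℕ) :
    Y β B n = X ((Real.sqrt 2)⁻¹ * β) (-((Real.sqrt 2)⁻¹ * B)) n := by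
  unfold X Y
  field_simp
  ring

lemma WY_eq (β B : ℝ) : WY β B = WX ((Real.sqrt 2)⁻¹ * β) (-((Real.sqrt 2)⁻¹ * B)) := by
  funext p
  unfold WX WY
  rw [Y_eq]

/-- the numbers of good indices of the orbit and of the amplitude -/
lemma N_eq {β B : ℝ} {m : ℕ}
    (h : ∀ p ≥ m, ⌊β * α ^ p + B * α' ^ p⌋₊ = ⌊β * α ^ p + 0⌋₊)
    {S : Finset ℕ} (hS : ∀ p ∈ S, m ≤ p) :
    N S (WX β B) = Pool.Agent.U776.PL.NE (Pool.Agent.U776.PG.Er Pool.Agent.U776.PS.sr) S β := by
  unfold N Pool.Agent.U776.PL.NE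
  refine congrArg Finset.card (Finset.ext fun p => ?_)
  simp only [Finset.mem_filter]
  refine and_congr_right fun hp => ?_
  have h1 := h p (hS p hp)
  rw [add_zero] at h1
  have h2 : WX β B p = Pool.Agent.H305R2.roughPart p ⌊β * α ^ p⌋₊ := by
    rw [← h1]
    rfl
  rw [h2]
  rfl

lemma NX_measurable (S : Finset ℕ) : Measurable (fun z : ℝ × ℝ => N S (WX z.1 z.2)) := by
  classical
  unfold N
  simp only [Finset.card_filter]
  refine Finset.measurable_sum _ fun p _ => ?_
  refine Measurable.ite ?_ measurable_const measurable_const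
  have h1 : Measurable (fun z : ℝ × ℝ => ⌊X z.1 z.2 p⌋₊) := by
    refine Nat.measurable_floor.comp ?_
    unfold X
    fun_prop
  exact h1 (MeasurableSet.of_discrete (s := {m : ℕ | (roughPart p m).Prime}))

lemma law_X {ι : Type} [Fintype ι] (S : ℕ → ι → Finset ℕ) (v : ι → ℝ) (hS : Thin S)
    (hv : ∀ i, Tendsto (fun n => V (S n i)) atTop (𝓝 (v i)))
    (μ : Measure (ℝ × ℝ)) (hμ : IsProbabilityMeasure μ) (hac : μ.map Prod.fst ≪ volume)
    (hpos : ∀ᵐ z ∂μ, 0 < z.1) (k : ι → ℕ) :
    Tendsto (fun n => μ.real {z : ℝ × ℝ | ∀ i, N (S n i) (WX z.1 z.2) = k i}) atTop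
      (𝓝 (∏ i, pois (κ * v i) (k i))) := by
  obtain ⟨Λ, A, P, C, c0, H⟩ := Pool.Agent.U776.PS.qm_silver
  have hm1 : Measurable (Prod.fst : ℝ × ℝ → ℝ) := measurable_fst
  have : IsProbabilityMeasure (μ.map (Prod.fst : ℝ × ℝ → ℝ)) :=
    Measure.isProbabilityMeasure_map hm1.aemeasurable
  set E := Pool.Agent.U776.PG.Er Pool.Agent.U776.PS.sr with hE
  have hEm : ∀ p, MeasurableSet (E p) := Pool.Agent.U776.PG.Er_measurable _
  have hset : ∀ n, MeasurableSet {β : ℝ | ∀ i, Pool.Agent.U776.PL.NE E (S n i) β = k i} := by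
    intro n
    have e : {β : ℝ | ∀ i, Pool.Agent.U776.PL.NE E (S n i) β = k i} =
        ⋂ i, {β : ℝ | Pool.Agent.U776.PL.NE E (S n i) β = k i} := by
      ext β
      simp
    rw [e]
    exact MeasurableSet.iInter fun i =>
      Pool.Agent.U776.PL.NE_measurable hEm (S n i) (measurableSet_singleton (k i))
  have h := Pool.Agent.U776.PG.annealed H
    (T := S) ⟨hS.disjoint, hS.large, hS.dyadic⟩ (lam := fun i => κ * v i)
    (fun i => (hv i).const_mul κ) (μ.map Prod.fst) hac
    (by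
      rw [ae_map_iff hm1.aemeasurable measurableSet_Ioi]
      exact hpos) k
  have h' : Tendsto (fun n => μ.real
      {z : ℝ × ℝ | ∀ i, Pool.Agent.U776.PL.NE E (S n i) z.1 = k i}) atTop
      (𝓝 (∏ i, pois (κ * v i) (k i))) := by
    refine h.congr fun n => ?_
    rw [measureReal_def, Measure.map_apply hm1 (hset n)]
    rfl
  refine Pool.Agent.U776.PG.real_congr (fun n => ?_) (fun n => hm1 (hset n)) ?_ h'
  · have e : {z : ℝ × ℝ | ∀ i, N (S n i) (WX z.1 z.2) = k i} =
        ⋂ i, {z : ℝ × ℝ | N (S n i) (WX z.1 z.2) = k i} := by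
      ext z
      simp
    rw [e]
    exact MeasurableSet.iInter fun i => NX_measurable (S n i) (measurableSet_singleton (k i))
  · have h2 : ∀ᵐ z ∂μ, 0 < z.1 → ∀ ψ : ℝ, |ψ| < 1 → ∀ B : ℝ, ∀ᶠ p : ℕ in atTop,
        ⌊z.1 * α ^ p + B * ψ ^ p⌋₊ = ⌊z.1 * α ^ p + 0⌋₊ :=
      ae_of_ae_map hm1.aemeasurable
        (hac.ae_le (Pool.Agent.N176.GW.floor_ae one_lt_alpha))
    filter_upwards [h2, hpos] with z h2 h0
    obtain ⟨m, hm⟩ := eventually_atTop.1 (h2 h0 α' conj_lt z.2)
    filter_upwards [hS.large m] with n hn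
    have h5 : ∀ i : ι, N (S n i) (WX z.1 z.2) = Pool.Agent.U776.PL.NE E (S n i) z.1 :=
      fun i => N_eq hm (hn i)
    simp only [Set.mem_ofPred_eq, h5, Set.mem_preimage]

/-- the orbit whose first coordinate is the second coordinate of the given one -/
noncomputable def sw (z : ℝ × ℝ) : ℝ × ℝ := ((Real.sqrt 2)⁻¹ * z.1, -((Real.sqrt 2)⁻¹ * z.2))

lemma sw_measurable : Measurable sw := by
  unfold sw
  fun_prop

lemma law_Y {ι : Type} [Fintype ι] (S : ℕ → ι → Finset ℕ) (v : ι → ℝ) (hS : Thin S)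
    (hv : ∀ i, Tendsto (fun n => V (S n i)) atTop (𝓝 (v i)))
    (μ : Measure (ℝ × ℝ)) (hμ : IsProbabilityMeasure μ) (hac : μ.map Prod.fst ≪ volume)
    (hpos : ∀ᵐ z ∂μ, 0 < z.1) (k : ι → ℕ) :
    Tendsto (fun n => μ.real {z : ℝ × ℝ | ∀ i, N (S n i) (WY z.1 z.2) = k i}) atTop
      (𝓝 (∏ i, pois (κ * v i) (k i))) := by
  have hc : (Real.sqrt 2)⁻¹ ≠ 0 := inv_ne_zero sqrt2_pos.ne'
  have h := law_X S v hS hv (μ.map sw) (Measure.isProbabilityMeasure_map sw_measurable.aemeasurable)
    (by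
      rw [Measure.map_map measurable_fst sw_measurable]
      have e : (Prod.fst ∘ sw : ℝ × ℝ → ℝ) = (fun x : ℝ => (Real.sqrt 2)⁻¹ * x) ∘ Prod.fst := rfl
      rw [e, ← Measure.map_map (measurable_const_mul _) measurable_fst]
      refine (hac.map (measurable_const_mul _)).trans ?_
      rw [Real.map_volume_mul_left hc]
      exact Measure.smul_absolutelyContinuous)
    (by
      rw [ae_map_iff sw_measurable.aemeasurable (measurableSet_lt measurable_const measurable_fst)]
      filter_upwards [hpos] with z hz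
      exact mul_pos (inv_pos.2 sqrt2_pos) hz) k
  refine h.congr fun n => ?_
  have hset : MeasurableSet {z : ℝ × ℝ | ∀ i, N (S n i) (WX z.1 z.2) = k i} := by
    have e : {z : ℝ × ℝ | ∀ i, N (S n i) (WX z.1 z.2) = k i} =
        ⋂ i, {z : ℝ × ℝ | N (S n i) (WX z.1 z.2) = k i} := by
      ext z
      simp
    rw [e]
    exact MeasurableSet.iInter fun i => NX_measurable (S n i) (measurableSet_singleton (k i))
  rw [measureReal_def, Measure.map_apply sw_measurable hset, measureReal_def]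
  congr 2
  ext z
  simp only [Set.mem_preimage, Set.mem_ofPred_eq, WY_eq]
  rfl

/-- The real orbits and the integer orbit; the convergence in law, for both coordinates. -/
theorem result :
    (∀ (β B : ℝ) (n : ℕ), X β B (n + 1) = X β B n + 2 * Y β B n ∧ Y β B (n + 1) = X β B n + Y β B n ∧
      X β B n ^ 2 - 2 * Y β B n ^ 2 = 4 * β * B * (-1) ^ n) ∧
    (∀ n : ℕ, X (1 / 2) (1 / 2) n = (pell n).1 ∧ Y (1 / 2) (1 / 2) n = (pell n).2) ∧
    (∀ p : ℕ, p.Prime → 3 < p →
      WX (1 / 2) (1 / 2) p = (pell p).1 ∧ WY (1 / 2) (1 / 2) p = (pell p).2) ∧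
    (∀ (ι : Type) [Fintype ι] (S : ℕ → ι → Finset ℕ) (v : ι → ℝ), Thin S →
      (∀ i, Tendsto (fun n => V (S n i)) atTop (𝓝 (v i))) →
      ∀ μ : Measure (ℝ × ℝ), IsProbabilityMeasure μ → μ.map Prod.fst ≪ volume →
      (∀ᵐ z ∂μ, 0 < z.1) → ∀ k : ι → ℕ,
      Tendsto (fun n => μ.real {z : ℝ × ℝ | ∀ i, N (S n i) (WX z.1 z.2) = k i}) atTop
        (𝓝 (∏ i, pois (κ * v i) (k i))) ∧
      Tendsto (fun n => μ.real {z : ℝ × ℝ | ∀ i, N (S n i) (WY z.1 z.2) = k i}) atTop
        (𝓝 (∏ i, pois (κ * v i) (k i)))) := by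
  refine ⟨fun β B n => ⟨X_succ β B n, Y_succ β B n, norm_eq β B n⟩, point,
    fun p hp h3 => ⟨WX_point hp h3, WY_point hp h3⟩, ?_⟩
  intro ι _ S v hS hv μ hμ hac hpos k
  exact ⟨law_X S v hS hv μ hμ hac hpos k, law_Y S v hS hv μ hμ hac hpos k⟩

end Pool.Agent.Results.MP_927e73_nt.PoissonLimit
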