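import Mathlib
import Pool.Agent.U310.Mers.Pell
import Pool.Agent.U310.Mers.Pair

set_option autoImplicit false

/-!
# Solutions of `p ^ 2 - 2 r ^ 2 = -1` in random models of the primes with a sieve

The positive solutions of `p ^ 2 - 2 r ^ 2 = -1` are `(X_n, Y_n)`, `n` odd, `X_n + Y_n √2 = (1 + √2) ^ n`.
Q1 asks whether `X_n` is prime for infinitely many odd `n` (then `n` is prime), Q2 whether `X_n` and `Y_n` are
both prime for infinitely many odd `n`.  We answer both in random models of the primes: the natural numbers are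
decided one after the other, no `m` with a prime factor at most `z(m)` is chosen, and the conditional
probability of choosing `m + 1` (without prime factors at most `z(m + 1)`) given the past is asymptotic to
`∏_{q ≤ z(m + 1)} (1 - 1/q)⁻¹ / log m`.  No independence and no rate is assumed.  The answer to Q1 is yes, the
answer to Q2 is no.
-/

open MeasureTheory Filter
open scoped Topology

namespace Pool.Agent.Results.MP_927e73_nt.RandomSieveModels

/-- `∏_{q ≤ x} (1 - 1/q)⁻¹`, `q` prime -/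
noncomputable def W (x : ℕ) : ℝ := ∏ q ∈ (Finset.Icc 1 x).filter Nat.Prime, (1 - (q : ℝ)⁻¹)⁻¹

/-- `m` has no prime factor at most `z m` -/
def Rough (z : ℕ → ℕ) (m : ℕ) : Prop := ∀ q, q.Prime → q ≤ z m → ¬ q ∣ m

/-- A random model of the primes with sieve level `z`.  `S n` is the event that `n` is chosen; it is adapted
to the filtration `ℱ`; no `n` with a prime factor at most `z n` is chosen; almost surely the conditional
probability of `S (n + 1)` given `ℱ n`, times `log n / W (z (n + 1))`, tends to `1` along the `n` for which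
`n + 1` has no prime factor at most `z (n + 1)`. -/
structure Model {Ω : Type} [mΩ : MeasurableSpace Ω] (μ : Measure Ω) (ℱ : Filtration ℕ mΩ)
    (S : ℕ → Set Ω) (z : ℕ → ℕ) : Prop where
  adapted : ∀ n, MeasurableSet[ℱ n] (S n)
  sieved : ∀ n, ¬ Rough z n → S n = ∅
  density : ∀ᵐ ω ∂μ, Tendsto (fun n : ℕ =>
    (μ[(S (n + 1)).indicator (fun _ => (1 : ℝ)) | ℱ n]) ω * Real.log n / W (z (n + 1)))
    (atTop ⊓ 𝓟 {n : ℕ | Rough z (n + 1)}) (𝓝 1)

/-- `(X_n, Y_n)` -/
def pell : ℕ → ℕ × ℕ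
  | 0 => (1, 0)
  | (n + 1) => ((pell n).1 + 2 * (pell n).2, (pell n).1 + (pell n).2)

/-- `X_n`, where `X_n + Y_n √2 = (1 + √2) ^ n` -/
def X (n : ℕ) : ℕ := (pell n).1
/-- `Y_n`, where `X_n + Y_n √2 = (1 + √2) ^ n` -/
def Y (n : ℕ) : ℕ := (pell n).2

/-- the number of primes `n ≤ N` in `E` with `D n ∈ S` -/
noncomputable def count (D : ℕ → ℕ) (S E : Set ℕ) (N : ℕ) : ℕ := {n | n ≤ N ∧ n.Prime ∧ n ∈ E ∧ D n ∈ S}.ncard

open Classical in
/-- `∑ log n / n` over the primes `n ≤ N` in `E` -/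
noncomputable def L (E : Set ℕ) (N : ℕ) : ℝ :=
  ∑ n ∈ (Finset.Icc 1 N).filter (fun n => n.Prime ∧ n ∈ E), Real.log n / n

lemma pell_eq (n : ℕ) : pell n = Pool.Agent.U310.Mers.pell n := by
  induction n with
  | zero => rfl
  | succ n ih =>
    show ((pell n).1 + 2 * (pell n).2, (pell n).1 + (pell n).2) = _
    rw [ih]
    rfl

lemma X_eq : X = Pool.Agent.U310.Mers.PX := by
  funext n
  unfold X
  rw [pell_eq]
  rfl

lemma Y_eq : Y = Pool.Agent.U310.Mers.PY := by
  funext n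
  unfold Y
  rw [pell_eq]
  rfl

lemma expo {D : ℕ → ℕ} (h : D = X ∨ D = Y) : Pool.Agent.U310.Mers.Expo D (Real.log (1 + √2)) := by
  rcases h with h | h
  · rw [h, X_eq]
    exact Pool.Agent.U310.Mers.PX_expo
  · rw [h, Y_eq]
    exact Pool.Agent.U310.Mers.PY_expo

/-- **Solutions of `p ^ 2 - 2 r ^ 2 = -1` in random models with a sieve.**

(0) `X_n + Y_n √2 = (1 + √2) ^ n`.

(1) For almost all primes `n` (in the sense of relative density) neither `X_n` nor `Y_n` has a prime factor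
`q ≤ g(n) n log n`, for every `g → 0`.  (This concerns the actual numbers.)

Consider a random model with sieve level `z`, `log z(m) / log log m → θ > 0`, and let `D` be `X` or `Y`.

(2) Let `z(m) ≤ τ log m` for all large `m`, `τ log (1 + √2) < 2`.  For every set `E` of exponents: if the sum of
`log n / n` over the primes `n` in `E` diverges, then almost surely the number of primes `n ≤ N` in `E` with
`D_n` chosen is asymptotic to `(θ e ^ γ / log (1 + √2)) ∑ log n / n`, the sum over the primes `n ≤ N` in `E`; if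
the sum converges, then almost surely only finitely many `D_n`, `n` a prime in `E`, are chosen.

(3) Let `z(m) / (log m log log m) → 0`.  If `E` has relative logarithmic density `d` in the primes, then almost
surely the number of primes `n ≤ N` in `E` with `D_n` chosen, divided by `log N`, tends to
`d θ e ^ γ / log (1 + √2)`.  In particular almost surely there are infinitely many odd primes `n` with `X_n`
chosen (Q1), and the number of those up to `N`, divided by `log N`, tends to `θ e ^ γ / log (1 + √2)`.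

(4) Almost surely there are only finitely many `n` with `X_n` and `Y_n` both chosen (Q2). -/
theorem result :
    -- (0)
    (∀ n : ℕ, (X n : ℝ) + Y n * √2 = (1 + √2) ^ n) ∧
    -- (1)
    (∀ g : ℕ → ℝ, Tendsto g atTop (𝓝 0) →
      Tendsto (fun N : ℕ => ({n : ℕ | n ≤ N ∧ n.Prime ∧ ∃ q : ℕ, q.Prime ∧ (q ∣ X n ∨ q ∣ Y n) ∧
        (q : ℝ) ≤ g n * (n * Real.log n)}.ncard : ℝ) / (N / Real.log N)) atTop (𝓝 0)) ∧
    ∀ {Ω : Type} [mΩ : MeasurableSpace Ω] (μ : Measure Ω) [IsProbabilityMeasure μ]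
      (ℱ : Filtration ℕ mΩ) (S : ℕ → Set Ω) (z : ℕ → ℕ) (_ : Model μ ℱ S z) (θ : ℝ) (_ : 0 < θ)
      (_ : Tendsto (fun m : ℕ => Real.log (z m) / Real.log (Real.log m)) atTop (𝓝 θ)),
    -- (2)
    (∀ τ : ℝ, 0 ≤ τ → τ * Real.log (1 + √2) < 2 → (∀ᶠ m : ℕ in atTop, (z m : ℝ) ≤ τ * Real.log m) →
      ∀ D : ℕ → ℕ, D = X ∨ D = Y → ∀ E : Set ℕ,
        (Tendsto (L E) atTop atTop →
          ∀ᵐ ω ∂μ, Tendsto (fun N => (count D {k | ω ∈ S k} E N : ℝ) /
            (θ * Real.exp Real.eulerMascheroniConstant / Real.log (1 + √2) * L E N)) atTop (𝓝 1)) ∧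
        ((∃ C : ℝ, ∀ N, L E N ≤ C) → ∀ᵐ ω ∂μ, {n | n.Prime ∧ n ∈ E ∧ ω ∈ S (D n)}.Finite)) ∧
    -- (3)
    (Tendsto (fun m : ℕ => (z m : ℝ) / (Real.log m * Real.log (Real.log m))) atTop (𝓝 0) →
      (∀ D : ℕ → ℕ, D = X ∨ D = Y →
        ∀ (E : Set ℕ) (d : ℝ), Tendsto (fun N => L E N / Real.log N) atTop (𝓝 d) →
        ∀ᵐ ω ∂μ, Tendsto (fun N : ℕ => (count D {k | ω ∈ S k} E N : ℝ) / Real.log N) atTop
          (𝓝 (θ * Real.exp Real.eulerMascheroniConstant / Real.log (1 + √2) * d))) ∧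
      ∀ᵐ ω ∂μ, {n : ℕ | n.Prime ∧ Odd n ∧ ω ∈ S (X n)}.Infinite ∧
        Tendsto (fun N : ℕ => ({n : ℕ | n ≤ N ∧ n.Prime ∧ Odd n ∧ ω ∈ S (X n)}.ncard : ℝ) / Real.log N) atTop
          (𝓝 (θ * Real.exp Real.eulerMascheroniConstant / Real.log (1 + √2)))) ∧
    -- (4)
    (∀ᵐ ω ∂μ, {n : ℕ | ω ∈ S (X n) ∧ ω ∈ S (Y n)}.Finite) := by
  classical
  refine ⟨fun n => ?_, fun g hg => ?_, ?_⟩
  · obtain ⟨h1, h2⟩ := Pool.Agent.U310.Mers.pell_real n
    have h3 : (0 : ℝ) < √2 := Real.sqrt_pos.2 (by norm_num)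
    rw [X_eq, Y_eq, h1, h2]
    field_simp
    ring
  · have h1 := Pool.Agent.U310.Mers.galmost (expo (Or.inl rfl)) g hg
    have h2 := Pool.Agent.U310.Mers.galmost (expo (Or.inr rfl)) g hg
    have h3 := h1.add h2
    rw [add_zero] at h3
    refine squeeze_zero' (Eventually.of_forall fun n => ?_) (Eventually.of_forall fun n => ?_) h3
    · exact div_nonneg (Nat.cast_nonneg _) (div_nonneg (Nat.cast_nonneg _) (Real.log_natCast_nonneg n))
    · rw [← add_div]
      apply div_le_div_of_nonneg_right _ (div_nonneg (Nat.cast_nonneg _) (Real.log_natCast_nonneg n))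
      have hfin : ∀ D : ℕ → ℕ, {p : ℕ | p ≤ n ∧ p.Prime ∧ ∃ q : ℕ, q.Prime ∧ q ∣ D p ∧
          (q : ℝ) ≤ g p * (p * Real.log p)}.Finite := fun D =>
        (Set.finite_Iic n).subset fun p hp => hp.1
      have hsub : {p : ℕ | p ≤ n ∧ p.Prime ∧ ∃ q : ℕ, q.Prime ∧ (q ∣ X p ∨ q ∣ Y p) ∧
          (q : ℝ) ≤ g p * (p * Real.log p)} ⊆
          {p : ℕ | p ≤ n ∧ p.Prime ∧ ∃ q : ℕ, q.Prime ∧ q ∣ X p ∧ (q : ℝ) ≤ g p * (p * Real.log p)} ∪
          {p : ℕ | p ≤ n ∧ p.Prime ∧ ∃ q : ℕ, q.Prime ∧ q ∣ Y p ∧ (q : ℝ) ≤ g p * (p * Real.log p)} := by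
        rintro p ⟨hp1, hp2, q, hq1, hq2 | hq2, hq3⟩
        · exact Or.inl ⟨hp1, hp2, q, hq1, hq2, hq3⟩
        · exact Or.inr ⟨hp1, hp2, q, hq1, hq2, hq3⟩
      have h4 := (Set.ncard_le_ncard hsub ((hfin X).union (hfin Y))).trans (Set.ncard_union_le _ _)
      exact_mod_cast h4
  intro Ω mΩ μ hμ ℱ S z hM θ hθ hz
  have hW' := Pool.Agent.U310.Mers.W_small z θ hθ hz
  have hprof : ∀ᵐ ω ∂μ, ∀ ε : ℝ, 0 < ε → ∀ᶠ n : ℕ in atTop,
        |Pool.Agent.R528.RM.dens μ ℱ S n ω - Pool.Agent.U310.Mers.rho1 z (n + 1)| ≤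
          ε * Pool.Agent.U310.Mers.rho1 z (n + 1) :=
    Pool.Agent.U310.Mers.profile z hW' hM.sieved hM.density
  refine ⟨?_, ?_, ?_⟩
  · intro τ hτ hτc hzτ D hD E
    exact ⟨fun h => Pool.Agent.U310.Mers.gtau_inf hM.adapted (expo hD) z θ hθ hz hprof τ hτ hτc hzτ E h,
      fun h => Pool.Agent.U310.Mers.gtau_fin hM.adapted (expo hD) z θ hθ hz hprof E h⟩
  · intro hz0
    have h4 : ∀ D : ℕ → ℕ, D = X ∨ D = Y →
        ∀ (E : Set ℕ) (d : ℝ), Tendsto (fun N => L E N / Real.log N) atTop (𝓝 d) →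
        ∀ᵐ ω ∂μ, Tendsto (fun N : ℕ => (count D {k | ω ∈ S k} E N : ℝ) / Real.log N) atTop
          (𝓝 (θ * Real.exp Real.eulerMascheroniConstant / Real.log (1 + √2) * d)) :=
      fun D hD E d hd => Pool.Agent.U310.Mers.gdens hM.adapted (expo hD) z θ hθ hz hprof hz0 E d hd
    refine ⟨h4, ?_⟩
    have hLodd : Tendsto (fun N => L {n | Odd n} N / Real.log N) atTop (𝓝 1) := by
      have h1 := Pool.Agent.U310.Mers.L_univ
      have h2 : Tendsto (fun n : ℕ => (Real.log 2 / 2) / Real.log n) atTop (𝓝 0) :=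
        tendsto_const_nhds.div_atTop Pool.Agent.U310.Mers.logNat
      have h3 := h1.sub h2
      rw [sub_zero] at h3
      have hL : ∀ n, L {n | Odd n} n = Pool.Agent.U310.Mers.L (Set.univ ∩ {n | Odd n}) n := by
        intro n
        rw [Set.univ_inter]
        rfl
      refine tendsto_of_tendsto_of_tendsto_of_le_of_le' h3 h1 ?_ ?_
      · refine Eventually.of_forall fun n => ?_
        rw [← sub_div]
        apply div_le_div_of_nonneg_right _ (Real.log_natCast_nonneg n)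
        have h4 := Pool.Agent.U310.Mers.L_diff_le Set.univ {p | Odd p} n {2} (fun p _ hp _ hp2 => by
          rcases hp.eq_two_or_odd' with h | h
          · rw [h]; exact Finset.mem_singleton_self 2
          · exact absurd h hp2)
        rw [Finset.sum_singleton] at h4
        rw [hL]
        push_cast at h4
        linarith
      · refine Eventually.of_forall fun n => ?_
        apply div_le_div_of_nonneg_right _ (Real.log_natCast_nonneg n)
        rw [hL]
        exact Pool.Agent.U310.Mers.L_le _ _ n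
    filter_upwards [h4 X (Or.inl rfl) {n | Odd n} 1 hLodd] with ω hω
    rw [mul_one] at hω
    have h6 : Tendsto (fun N : ℕ => ({n : ℕ | n ≤ N ∧ n.Prime ∧ Odd n ∧ ω ∈ S (X n)}.ncard : ℝ) / Real.log N)
          atTop (𝓝 (θ * Real.exp Real.eulerMascheroniConstant / Real.log (1 + √2))) := hω
    refine ⟨?_, h6⟩
    intro hfin
    have h7 : Tendsto (fun N : ℕ => ({n : ℕ | n ≤ N ∧ n.Prime ∧ Odd n ∧ ω ∈ S (X n)}.ncard : ℝ) / Real.log N)
        atTop (𝓝 0) := by
      have h8 : Tendsto (fun N : ℕ => ({n : ℕ | n.Prime ∧ Odd n ∧ ω ∈ S (X n)}.ncard : ℝ) / Real.log N)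
          atTop (𝓝 0) := tendsto_const_nhds.div_atTop Pool.Agent.U310.Mers.logNat
      refine squeeze_zero (fun n => div_nonneg (Nat.cast_nonneg _) (Real.log_natCast_nonneg n)) (fun n => ?_) h8
      apply div_le_div_of_nonneg_right _ (Real.log_natCast_nonneg n)
      have h10 : {m : ℕ | m ≤ n ∧ m.Prime ∧ Odd m ∧ ω ∈ S (X m)} ⊆ {m : ℕ | m.Prime ∧ Odd m ∧ ω ∈ S (X m)} :=
        fun p hp => hp.2
      exact_mod_cast Set.ncard_le_ncard h10 hfin
    have h9 := tendsto_nhds_unique h6 h7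
    have hlb : 0 < Real.log (1 + √2) := Real.log_pos Pool.Agent.U310.Mers.one_lt_r
    have : 0 < θ * Real.exp Real.eulerMascheroniConstant / Real.log (1 + √2) := by positivity
    linarith
  · have hne : ∀ᶠ n in atTop, X n ≠ Y n := by
      filter_upwards [eventually_ge_atTop 2] with n hn
      rw [X_eq, Y_eq]
      exact Pool.Agent.U310.Mers.PX_ne_PY n (by omega) (by omega)
    exact Pool.Agent.U310.Mers.gtwo hM.adapted (expo (Or.inl rfl)) (expo (Or.inr rfl)) z θ hθ hz hprof hne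

end Pool.Agent.Results.MP_927e73_nt.RandomSieveModels
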