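import Mathlib
import Pool.Agent.H447R2.ML.Spec
import Pool.Agent.H19P.QA
import Pool.Agent.U606.PL.Fl

set_option autoImplicit false

/-!
# The real solutions of the negative Pell equation

Let `α = 1 + √2`, `α' = 1 - √2`, and for real `β, B` let
`X β B n = β α ^ n + B α' ^ n`, `Y β B n = (β α ^ n - B α' ^ n) / √2`. These are the real solutions of
the recursion `X' = X + 2 Y`, `Y' = X + Y` of the Pell equation, and
`X β B n ^ 2 - 2 Y β B n ^ 2 = 4 β B (-1) ^ n`; so for `B = 1 / (4 β)` and odd `n` the point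
`(X β B n, Y β B n)` is a real solution of `X ^ 2 - 2 Y ^ 2 = -1`. For `β = B = 1 / 2` they are the
integer solutions `(x n, y n)`, `x n + y n √2 = (1 + √2) ^ n`; those with odd `n` are the solutions of
`x ^ 2 - 2 y ^ 2 = -1` in positive integers.

For a prime `p` let `WX β B p`, `WY β B p` be the `p`-rough parts (the product, with multiplicity, of
the prime factors larger than `p`) of the integer parts of `X β B p`, `Y β B p`. For the integer
solution these are the numbers `x p`, `y p` themselves, for all primes `p > 3`.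
-/

namespace Pool.Agent.Results.MP_927e73_nt.RealSolutions

open Filter Topology MeasureTheory Asymptotics

/-- The fundamental unit. -/
noncomputable def α : ℝ := 1 + Real.sqrt 2

/-- The conjugate of the fundamental unit. -/
noncomputable def α' : ℝ := 1 - Real.sqrt 2

/-- The first coordinate of a real orbit. -/
noncomputable def X (β B : ℝ) (n : ℕ) : ℝ := β * α ^ n + B * α' ^ n

/-- The second coordinate of a real orbit. -/
noncomputable def Y (β B : ℝ) (n : ℕ) : ℝ := (β * α ^ n - B * α' ^ n) / Real.sqrt 2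

/-- The integer orbit `(x n, y n)`, `x n + y n √2 = (1 + √2) ^ n`. -/
def pell : ℕ → ℕ × ℕ
  | 0 => (1, 0)
  | (n + 1) => ((pell n).1 + 2 * (pell n).2, (pell n).1 + (pell n).2)

/-- The product, with multiplicity, of the prime factors of `m` that are larger than `p`. -/
def roughPart (p m : ℕ) : ℕ := (m.primeFactorsList.filter (fun r => p < r)).prod

/-- The `p`-rough part of `⌊X β B p⌋`. -/
noncomputable def WX (β B : ℝ) (p : ℕ) : ℕ := roughPart p ⌊X β B p⌋₊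

/-- The `p`-rough part of `⌊Y β B p⌋`. -/
noncomputable def WY (β B : ℝ) (p : ℕ) : ℕ := roughPart p ⌊Y β B p⌋₊

open Classical in
/-- The number of primes `p ≤ n` in the set `S` for which `w p` is prime. -/
noncomputable def M (S : Set ℕ) (w : ℕ → ℕ) (n : ℕ) : ℕ :=
  ((Finset.range (n + 1)).filter (fun p => p.Prime ∧ p ∈ S ∧ (w p).Prime)).card

open Classical in
/-- The number of primes `p ≤ n` in the set `S` for which `w p` or `w' p` is prime. -/
noncomputable def M2 (S : Set ℕ) (w w' : ℕ → ℕ) (n : ℕ) : ℕ :=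
  ((Finset.range (n + 1)).filter (fun p => p.Prime ∧ p ∈ S ∧ ((w p).Prime ∨ (w' p).Prime))).card

open Classical in
/-- The sum of `log p / p` over the primes `p ≤ n` in the set `S`. -/
noncomputable def V (S : Set ℕ) (n : ℕ) : ℝ :=
  ∑ p ∈ (Finset.range (n + 1)).filter (fun p => p.Prime ∧ p ∈ S), Real.log p / p

/-- `F n = c log n + O((log n) ^ (1/2) (log log n) ^ (5/2))` -/
def LawAll (F : ℕ → ℕ) (c : ℝ) : Prop :=
  (fun n : ℕ => (F n : ℝ) - c * Real.log n) =O[atTop]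
    (fun n : ℕ => Real.sqrt (Real.log n) * (Real.log (Real.log n)) ^ ((5 : ℝ) / 2))

/-- `F n = c V n + O((V K) ^ (1/2) (log (V K)) ^ 2)`, `V = V S n`, `K = log log n` -/
def LawSet (S : Set ℕ) (F : ℕ → ℕ) (c : ℝ) : Prop :=
  (fun n : ℕ => (F n : ℝ) - c * V S n) =O[atTop]
    (fun n : ℕ => Real.sqrt (V S n * Real.log (Real.log n)) *
      (Real.log (V S n * Real.log (Real.log n))) ^ 2)

/-- The constant `e ^ γ / log (1 + √2)`. -/
noncomputable def c₀ : ℝ := Real.exp Real.eulerMascheroniConstant / Real.log α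

lemma V_eq (S : Set ℕ) (n : ℕ) : V S n = Pool.Agent.TH888.R.VS S n := by
  classical
  unfold V Pool.Agent.TH888.R.VS
  rw [Finset.sum_filter]
  refine Finset.sum_congr rfl fun p _ => ?_
  by_cases h : p.Prime ∧ p ∈ S
  · rw [if_pos h, if_pos ⟨h.2, h.1⟩]
    rfl
  · rw [if_neg h, if_neg fun h1 => h ⟨h1.2, h1.1⟩]

lemma sq2 : Real.sqrt 2 ^ 2 = 2 := Real.sq_sqrt (by norm_num)

lemma sqrt2_pos : 0 < Real.sqrt 2 := Real.sqrt_pos.2 (by norm_num)

lemma one_lt_sqrt2 : 1 < Real.sqrt 2 := by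
  rw [Real.lt_sqrt (by norm_num)]
  norm_num

lemma sqrt2_lt : Real.sqrt 2 < 2 := by
  rw [Real.sqrt_lt' (by norm_num)]
  norm_num

lemma one_lt_alpha : 1 < α := by
  unfold α
  linarith [sqrt2_pos]

lemma alpha_pos : 0 < α := zero_lt_one.trans one_lt_alpha

lemma conj_lt : |α'| < 1 := by
  unfold α'
  rw [abs_lt]
  constructor <;> linarith [one_lt_sqrt2, sqrt2_lt]

lemma alpha_add : α + α' = ((2 : ℤ) : ℝ) := by unfold α α'; push_cast; ring

lemma alpha_mul : α * α' = -1 := by unfold α α'; nlinarith [sq2]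

lemma X_succ (β B : ℝ) (n : ℕ) : X β B (n + 1) = X β B n + 2 * Y β B n := by
  have h := sqrt2_pos.ne'
  have h2 := sq2
  unfold X Y
  rw [pow_succ, pow_succ, mul_div_assoc', eq_comm, ← sub_eq_zero]
  field_simp
  unfold α α'
  ring_nf
  rw [sq2]
  ring

lemma Y_succ (β B : ℝ) (n : ℕ) : Y β B (n + 1) = X β B n + Y β B n := by
  have h := sqrt2_pos.ne'
  have h2 := sq2
  unfold X Y
  rw [pow_succ, pow_succ, eq_comm, ← sub_eq_zero]
  field_simp
  unfold α α'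
  ring

lemma norm_eq (β B : ℝ) (n : ℕ) : X β B n ^ 2 - 2 * Y β B n ^ 2 = 4 * β * B * (-1) ^ n := by
  unfold X Y
  rw [div_pow, sq2, ← alpha_mul, mul_pow]
  ring

lemma point (n : ℕ) : X (1 / 2) (1 / 2) n = (pell n).1 ∧ Y (1 / 2) (1 / 2) n = (pell n).2 := by
  induction n with
  | zero =>
    unfold X Y pell
    simp
    norm_num
  | succ n ih =>
    rw [X_succ, Y_succ, ih.1, ih.2]
    show _ = (((pell n).1 + 2 * (pell n).2 : ℕ) : ℝ) ∧ _ = (((pell n).1 + (pell n).2 : ℕ) : ℝ)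
    push_cast
    exact ⟨rfl, rfl⟩

lemma pell_luc (n : ℕ) : Pool.Agent.H447R2.ML.U 2 n = (pell n).2 ∧
    Pool.Agent.H447R2.ML.V 2 n = 2 * (pell n).1 := by
  induction n using Nat.twoStepInduction with
  | zero => exact ⟨rfl, rfl⟩
  | one => exact ⟨rfl, rfl⟩
  | more n h1 h2 =>
    rw [Pool.Agent.H447R2.ML.U_add_two, Pool.Agent.H447R2.ML.V_add_two, h1.1, h2.1, h1.2, h2.2]
    simp only [pell]
    constructor <;> ring

lemma pell_odd (n : ℕ) : Odd (pell n).1 := by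
  induction n with
  | zero => exact odd_one
  | succ n ih =>
    show Odd ((pell n).1 + 2 * (pell n).2)
    exact ih.add_even (even_two_mul _)

/-- The integer solution: second coordinate. -/
lemma WY_point {p : ℕ} (hp : p.Prime) (h3 : 3 < p) : WY (1 / 2) (1 / 2) p = (pell p).2 := by
  have h5 : 5 ≤ p := by
    by_contra h
    have : p = 4 := by omega
    subst this
    exact absurd hp (by norm_num)
  have hd : ¬ p ∣ 2 ^ 2 + 4 := by
    intro h
    have h8 : p ∣ 2 ^ 3 := h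
    have := Nat.le_of_dvd two_pos (hp.dvd_of_dvd_pow h8)
    omega
  have h := Pool.Agent.H447R2.ML.rough_U 2 two_pos hp h5 hd
    (x := Y (1 / 2) (1 / 2) p) (by rw [(point p).2, (pell_luc p).1])
  rw [(pell_luc p).1] at h
  exact h

/-- The integer solution: first coordinate. -/
lemma WX_point {p : ℕ} (hp : p.Prime) (h3 : 3 < p) : WX (1 / 2) (1 / 2) p = (pell p).1 := by
  have h5 : 5 ≤ p := by
    by_contra h
    have : p = 4 := by omega
    subst this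
    exact absurd hp (by norm_num)
  have hd : ¬ p ∣ 2 := fun h => by
    have := Nat.le_of_dvd two_pos h
    omega
  have h : Pool.Agent.H305R2.roughPart p ⌊X (1 / 2) (1 / 2) p⌋₊ = (pell p).1 := by
    rw [(point p).1, Nat.floor_natCast]
    refine Pool.Agent.H447R2.ML.roughPart_eq_self ?_ fun q hq h => ?_
    · exact (pell_odd p).pos.ne'
    · refine Pool.Agent.H447R2.ML.lt_of_dvd_V 2 hp h5 hd hq (fun h' => ?_) ?_
      · have h2 : q = 2 := (Nat.prime_dvd_prime_iff_eq hq Nat.prime_two).1 h'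
        subst h2
        exact (Nat.not_even_iff_odd.2 (pell_odd p)) (even_iff_two_dvd.2 h)
      · rw [(pell_luc p).2]
        exact h.mul_left 2
  exact h

/-! ### the two families -/

lemma Y_eq (β B : ℝ) (n : ℕ) : Y β B n = (Real.sqrt 2)⁻¹ * β * α ^ n + -((Real.sqrt 2)⁻¹ * B) * α' ^ n := by
  unfold Y
  field_simp
  ring

/-- `√2` is badly approximable -/
lemma dio (a b : ℕ) (_ : 1 ≤ a) (hb : 1 ≤ b) : 1 ≤ |(a : ℝ) - b * Real.sqrt 2| * (2 * (a + b)) := by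
  have h1 : ((a : ℤ) ^ 2 - 2 * (b : ℤ) ^ 2) ≠ 0 := by
    intro h
    have h2 : ((a : ℝ)) ^ 2 = 2 * (b : ℝ) ^ 2 := by
      have : (a : ℤ) ^ 2 = 2 * (b : ℤ) ^ 2 := by linarith
      exact_mod_cast this
    have hb0 : (0 : ℝ) < b := by exact_mod_cast hb
    have h3 : Real.sqrt 2 = a / b := by
      rw [eq_div_iff hb0.ne', ← Real.sqrt_sq hb0.le, ← Real.sqrt_mul (by norm_num), ← h2,
        Real.sqrt_sq (Nat.cast_nonneg a)]
    exact irrational_sqrt_two ⟨(a : ℚ) / b, by rw [h3]; push_cast; rfl⟩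
  have h2 : (1 : ℤ) ≤ |(a : ℤ) ^ 2 - 2 * (b : ℤ) ^ 2| := Int.one_le_abs h1
  have h3 : (1 : ℝ) ≤ |(a : ℝ) ^ 2 - 2 * (b : ℝ) ^ 2| := by exact_mod_cast h2
  have h4 : (a : ℝ) ^ 2 - 2 * (b : ℝ) ^ 2 = (a - b * Real.sqrt 2) * (a + b * Real.sqrt 2) := by
    nlinarith [sq2]
  rw [h4, abs_mul] at h3
  refine h3.trans (mul_le_mul_of_nonneg_left ?_ (abs_nonneg _))
  have ha0 : (0 : ℝ) ≤ a := Nat.cast_nonneg a
  have hb0 : (0 : ℝ) ≤ b := Nat.cast_nonneg b
  rw [abs_of_nonneg (by positivity)]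
  nlinarith [sqrt2_lt, sqrt2_pos]

lemma inv_sqrt2_ne : (Real.sqrt 2)⁻¹ ≠ 0 := inv_ne_zero sqrt2_pos.ne'

/-- the integer parts of the first coordinate -/
lemma floors_X : ∀ᵐ β : ℝ, 0 < β → ∀ B : ℝ, ∃ N : ℕ, ∀ n ≥ N,
    ⌊X β B n⌋₊ = ⌊β * α ^ n + 0 * α' ^ n⌋₊ := by
  filter_upwards [Pool.Agent.U606.PL.floors one_lt_alpha conj_lt] with β hβ h0 B
  obtain ⟨N, hN⟩ := hβ h0 B
  refine ⟨N, fun n hn => ?_⟩
  rw [zero_mul, add_zero]
  exact hN n hn

/-- the integer parts of the second coordinate -/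
lemma floors_Y : ∀ᵐ β : ℝ, 0 < β → ∀ B : ℝ, ∃ N : ℕ, ∀ n ≥ N,
    ⌊Y β B n⌋₊ = ⌊(Real.sqrt 2)⁻¹ * β * α ^ n + 0 * α' ^ n⌋₊ := by
  have h := Pool.Agent.U606.PL.ae_scale (Pool.Agent.U606.PL.floors one_lt_alpha conj_lt) inv_sqrt2_ne
  filter_upwards [h] with β hβ h0 B
  have h1 : 0 < (Real.sqrt 2)⁻¹ * β := mul_pos (inv_pos.2 sqrt2_pos) h0
  obtain ⟨N, hN⟩ := hβ h1 (-((Real.sqrt 2)⁻¹ * B))
  refine ⟨N, fun n hn => ?_⟩
  rw [zero_mul, add_zero, Y_eq]
  exact hN n hn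

lemma pt_X (S : Set ℕ) : ∀ᵐ β : ℝ, 0 < β → ∀ B : ℝ,
    Pool.Agent.TH888.R.Pt (fun p => ⌊X β B p⌋₊) c₀ S := by
  filter_upwards [Pool.Agent.H19P.pt_unit one_lt_alpha alpha_add alpha_mul 0 S, floors_X] with β h1 h2 h0 B
  obtain ⟨N, hN⟩ := h2 h0 B
  exact Pool.Agent.U606.PL.pt_congr (h1 h0) hN

lemma pt_Y (S : Set ℕ) : ∀ᵐ β : ℝ, 0 < β → ∀ B : ℝ,
    Pool.Agent.TH888.R.Pt (fun p => ⌊Y β B p⌋₊) c₀ S := by
  have h := Pool.Agent.U606.PL.ae_scale
    (Pool.Agent.H19P.pt_unit one_lt_alpha alpha_add alpha_mul 0 S) inv_sqrt2_ne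
  filter_upwards [h, floors_Y] with β h1 h2 h0 B
  obtain ⟨N, hN⟩ := h2 h0 B
  exact Pool.Agent.U606.PL.pt_congr (h1 (mul_pos (inv_pos.2 sqrt2_pos) h0)) hN

/-- both coordinates -/
lemma both : ∀ᵐ β : ℝ, 0 < β → ∀ B : ℝ, {n : ℕ | (WX β B n).Prime ∧ (WY β B n).Prime}.Finite := by
  have h := Pool.Agent.U606.PL.ae_scale (Pool.Agent.U606.PL.ae_not_both (α := α) (κ := 0) (C := 0)
    (A := 2) (ρ := Real.sqrt 2) (g := fun _ => 0) (g2 := fun _ => 0) one_lt_alpha le_rfl alpha_pos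
    (fun p => by simp) (fun p => by simp) one_le_two one_lt_sqrt2.le dio) inv_sqrt2_ne
  filter_upwards [h, floors_X, floors_Y] with β h1 h2 h3 h0 B
  obtain ⟨N, hN⟩ := h2 h0 B
  obtain ⟨N', hN'⟩ := h3 h0 B
  refine ((h1 (mul_pos (inv_pos.2 sqrt2_pos) h0)).union
    ((Set.finite_lt_nat N).union (Set.finite_lt_nat N'))).subset ?_
  rintro n ⟨hn1, hn2⟩
  by_cases hnN : N ≤ n
  · by_cases hnN' : N' ≤ n
    · left
      have e1 := hN n hnN
      have e2 := hN' n hnN'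
      rw [zero_mul] at e1 e2
      have e3 : (Real.sqrt 2)⁻¹ * β * Real.sqrt 2 = β := by
        have := sqrt2_pos.ne'
        field_simp
      refine ⟨?_, ?_⟩
      · rw [← e2]
        exact hn2
      · rw [e3, ← e1]
        exact hn1
    · exact Or.inr (Or.inr (not_le.1 hnN'))
  · exact Or.inr (Or.inl (not_le.1 hnN))

lemma conj_pow_le (n : ℕ) : |α' ^ n| ≤ 1 := by
  rw [abs_pow]
  exact pow_le_one₀ (abs_nonneg _) conj_lt.le

/-- the tail bound for both coordinates -/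
lemma tail (B b : ℝ) : ∃ K : ℝ, 0 < K ∧ ∃ P : ℕ, ∀ N ≥ P,
    volume {t : ℝ | t ∈ Set.Ioc b (b + 1) ∧
      ∃ n ≥ N, (WX (Real.exp t) B n).Prime ∧ (WY (Real.exp t) B n).Prime} ≤
      ENNReal.ofReal (K * ((Real.log N) ^ 2 / N)) := by
  set g : ℕ → ℝ := fun n => -((Real.sqrt 2)⁻¹ * B) * α' ^ n with hg
  set g2 : ℕ → ℝ := fun n => B * α' ^ n with hg2
  set s := Real.log (Real.sqrt 2) with hs
  have hi : (Real.sqrt 2)⁻¹ ≤ 1 := inv_le_one_of_one_le₀ one_lt_sqrt2.le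
  have hi0 : 0 ≤ (Real.sqrt 2)⁻¹ := (inv_pos.2 sqrt2_pos).le
  have hgb : ∀ p, |g p| ≤ |B| * (1 : ℝ) ^ p := by
    intro p
    rw [hg, one_pow]
    simp only
    rw [abs_mul, abs_neg, abs_mul, abs_of_nonneg hi0]
    have h1 := conj_pow_le p
    have h2 := abs_nonneg B
    have h3 : (Real.sqrt 2)⁻¹ * |B| ≤ 1 * |B| := mul_le_mul_of_nonneg_right hi h2
    have h4 : 0 ≤ (Real.sqrt 2)⁻¹ * |B| := mul_nonneg hi0 h2
    calc (Real.sqrt 2)⁻¹ * |B| * |α' ^ p| ≤ (Real.sqrt 2)⁻¹ * |B| * 1 :=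
          mul_le_mul_of_nonneg_left h1 h4
      _ ≤ |B| * 1 := by linarith
  have hg2b : ∀ p, |g2 p| ≤ |B| * (1 : ℝ) ^ p := by
    intro p
    rw [hg2, one_pow]
    simp only
    rw [abs_mul]
    exact mul_le_mul_of_nonneg_left (conj_pow_le p) (abs_nonneg B)
  obtain ⟨K, hK, P, hP⟩ := Pool.Agent.U606.PL.tail one_lt_alpha zero_le_one one_lt_alpha hgb hg2b
    one_le_two one_lt_sqrt2.le dio (b - s)
  obtain ⟨P1, hP1⟩ := eventually_atTop.1
    (Pool.Agent.W66X.pert8 alpha_pos zero_le_one one_lt_alpha hgb (b - s) 8)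
  obtain ⟨P2, hP2⟩ := eventually_atTop.1
    (Pool.Agent.W66X.pert8 alpha_pos zero_le_one one_lt_alpha hg2b b 8)
  refine ⟨K, hK, max P (max P1 P2), fun N hN => ?_⟩
  have hN0 : P ≤ N := (le_max_left _ _).trans hN
  have hN1 : P1 ≤ N := (le_max_left _ _).trans ((le_max_right _ _).trans hN)
  have hN2 : P2 ≤ N := (le_max_right _ _).trans ((le_max_right _ _).trans hN)
  refine le_trans ?_ (hP N hN0)
  rw [← measure_preimage_add_right volume s]
  refine measure_mono_ae ?_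
  filter_upwards [Pool.Agent.U606.PL.ae_not_int (s := 0) alpha_pos g,
    Pool.Agent.U606.PL.ae_not_int (s := s) alpha_pos g2] with t h1 h2 ht
  obtain ⟨ht1, n, hn, hx, hy⟩ := ht
  have ht2 : b - s ≤ t + 0 := by linarith [ht1.1]
  have f1 := Pool.Agent.U606.PL.floor_of (s := 0) alpha_pos (g := g) (a0 := b - s) (t := t) ht2 h1
    (hP1 n (hN1.trans hn))
  have f2 := Pool.Agent.U606.PL.floor_of (s := s) alpha_pos (g := g2) (a0 := b) (t := t) ht1.1.le h2
    (hP2 n (hN2.trans hn))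
  rw [add_zero] at f1
  refine ⟨Set.mem_iUnion.2 ⟨n - N, ?_⟩, ⟨by linarith [ht1.1], by linarith [ht1.2]⟩⟩
  rw [show N + (n - N) = n by omega]
  refine ⟨?_, ?_⟩
  · rw [f1]
    have e : Real.exp t * α ^ n + g n = Y (Real.exp (t + s)) B n := by
      have h4 : (Real.sqrt 2)⁻¹ * Real.exp (t + s) = Real.exp t := by
        rw [Real.exp_add, hs, Real.exp_log sqrt2_pos]
        have := sqrt2_pos.ne'
        field_simp
      rw [Y_eq, h4]
    rw [e]
    exact hy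
  · rw [f2]
    exact hx

/-- **The real solutions of the negative Pell equation.** -/
theorem result :
    -- the real orbits, and the integer orbit
    (∀ (β B : ℝ) (n : ℕ), X β B (n + 1) = X β B n + 2 * Y β B n ∧ Y β B (n + 1) = X β B n + Y β B n ∧
      X β B n ^ 2 - 2 * Y β B n ^ 2 = 4 * β * B * (-1) ^ n) ∧
    (∀ n : ℕ, X (1 / 2) (1 / 2) n = (pell n).1 ∧ Y (1 / 2) (1 / 2) n = (pell n).2) ∧
    (∀ p : ℕ, p.Prime → 3 < p → WX (1 / 2) (1 / 2) p = (pell p).1 ∧ WY (1 / 2) (1 / 2) p = (pell p).2) ∧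
    -- the laws for almost every `β` and every `B`
    (∀ᵐ β : ℝ, 0 < β → ∀ B : ℝ,
      LawAll (M Set.univ (WX β B)) c₀ ∧ LawAll (M Set.univ (WY β B)) c₀ ∧
      LawAll (M2 Set.univ (WX β B) (WY β B)) (2 * c₀)) ∧
    (∀ S : Set ℕ, Tendsto (V S) atTop atTop → ∀ᵐ β : ℝ, 0 < β → ∀ B : ℝ,
      LawSet S (M S (WX β B)) c₀ ∧ LawSet S (M S (WY β B)) c₀ ∧
      LawSet S (M2 S (WX β B) (WY β B)) (2 * c₀)) ∧
    (∀ S : Set ℕ, ¬ Tendsto (V S) atTop atTop → ∀ᵐ β : ℝ, 0 < β → ∀ B : ℝ,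
      {p : ℕ | p.Prime ∧ p ∈ S ∧ ((WX β B p).Prime ∨ (WY β B p).Prime)}.Finite) ∧
    -- both coordinates
    (∀ᵐ β : ℝ, 0 < β → ∀ B : ℝ, {n : ℕ | (WX β B n).Prime ∧ (WY β B n).Prime}.Finite) ∧
    (∀ B b : ℝ, ∃ K : ℝ, 0 < K ∧ ∃ P : ℕ, ∀ N ≥ P,
      volume {t : ℝ | t ∈ Set.Ioc b (b + 1) ∧
        ∃ n ≥ N, (WX (Real.exp t) B n).Prime ∧ (WY (Real.exp t) B n).Prime} ≤
        ENNReal.ofReal (K * ((Real.log N) ^ 2 / N))) := by
  have hV : ∀ S, V S = Pool.Agent.TH888.R.VS S := fun S => funext fun n => V_eq S n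
  refine ⟨fun β B n => ⟨X_succ β B n, Y_succ β B n, norm_eq β B n⟩, point,
    fun p hp h3 => ⟨WX_point hp h3, WY_point hp h3⟩, ?_, fun S hS => ?_, fun S hS => ?_, both, tail⟩
  · filter_upwards [pt_X Set.univ, pt_Y Set.univ, both] with β h1 h2 h3 h0 B
    have hu := Pool.Agent.TH888.R.VS_univ_tendsto
    obtain ⟨C1, hC1, l1⟩ := (h1 h0 B).law hu
    obtain ⟨C2, hC2, l2⟩ := (h2 h0 B).law hu
    obtain ⟨N, hN⟩ := (h3 h0 B).bddAbove
    obtain ⟨C3, hC3, l3⟩ := Pool.Agent.U606.PL.law_union (N := N + 1) hu (h1 h0 B) (h2 h0 B)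
      (fun p hp hc => by
        have h : p ≤ N := hN hc
        omega)
    exact ⟨Pool.Agent.TH888.R.bigO_all hC1 l1, Pool.Agent.TH888.R.bigO_all hC2 l2,
      Pool.Agent.TH888.R.bigO_all hC3 l3⟩
  · rw [hV] at hS
    filter_upwards [pt_X S, pt_Y S, both] with β h1 h2 h3 h0 B
    obtain ⟨C1, hC1, l1⟩ := (h1 h0 B).law hS
    obtain ⟨C2, hC2, l2⟩ := (h2 h0 B).law hS
    obtain ⟨N, hN⟩ := (h3 h0 B).bddAbove
    obtain ⟨C3, hC3, l3⟩ := Pool.Agent.U606.PL.law_union (N := N + 1) hS (h1 h0 B) (h2 h0 B)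
      (fun p hp hc => by
        have h : p ≤ N := hN hc
        omega)
    unfold LawSet
    rw [hV]
    exact ⟨Pool.Agent.TH888.R.bigO_set hC1 hS l1, Pool.Agent.TH888.R.bigO_set hC2 hS l2,
      Pool.Agent.TH888.R.bigO_set hC3 hS l3⟩
  · rw [hV] at hS
    filter_upwards [pt_X S, pt_Y S] with β h1 h2 h0 B
    refine (((h1 h0 B).fin hS).union ((h2 h0 B).fin hS)).subset ?_
    rintro p ⟨hp, hpS, h | h⟩
    · exact Or.inl ⟨hp, hpS, h⟩
    · exact Or.inr ⟨hp, hpS, h⟩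

end Pool.Agent.Results.MP_927e73_nt.RealSolutions
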